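import Pool.Agent.Helper78.JT.Goals
import Pool.Agent.Helper20.DT.IND
import Pool.Agent.Helper35.DT.LAG
import Pool.Agent.Helper93.DT.BIA
import Pool.Agent.Helper34.DT.DIG

/-!
# JT-STR: strings coded by numbers
-/

namespace Pool.Agent.Helper40.JT

open Pool.Agent.Helper78.DT Pool.Agent.Helper78.JT
open scoped Classical

theorem sum_mod (N Q : ℕ) (G : ℕ → ℝ) :
    ∑ y ∈ Finset.range (N * Q), G (y % N) = Q * ∑ w ∈ Finset.range N, G w := by
  induction Q with
  | zero => simp
  | succ Q ih =>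
    rw [Nat.mul_succ, Finset.sum_range_add, ih]
    have h : ∑ x ∈ Finset.range N, G ((N * Q + x) % N) = ∑ w ∈ Finset.range N, G w := by
      refine Finset.sum_congr rfl fun x hx => ?_
      rw [Nat.mul_add_mod, Nat.mod_eq_of_lt (Finset.mem_range.mp hx)]
    rw [h]
    push_cast
    ring

theorem pr_mod {N R : ℕ} (hN : 0 < N) (hR : 0 < R) (E : ℕ → Prop) :
    |pr (fun y : Fin R => E (y % N)) - pr (fun w : Fin N => E w)| ≤ (N : ℝ) / R := by
  obtain ⟨G, hG⟩ : ∃ G : ℕ → ℝ, G = fun n => if E n then 1 else 0 := ⟨_, rfl⟩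
  have hG0 : ∀ n, 0 ≤ G n := fun n => by
    rw [hG]
    dsimp only
    split <;> norm_num
  have hG1 : ∀ n, G n ≤ 1 := fun n => by
    rw [hG]
    dsimp only
    split <;> norm_num
  have h1 : pr (fun y : Fin R => E (y % N)) = (∑ y ∈ Finset.range R, G (y % N)) / R := by
    rw [pr, av, Fintype.card_fin, Finset.sum_range, hG]
  have h2 : pr (fun w : Fin N => E w) = (∑ w ∈ Finset.range N, G w) / N := by
    rw [pr, av, Fintype.card_fin, Finset.sum_range, hG]
  obtain ⟨Q, hQ⟩ : ∃ Q, Q = R / N := ⟨_, rfl⟩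
  obtain ⟨ρ, hρ⟩ : ∃ ρ, ρ = R % N := ⟨_, rfl⟩
  have hρN : ρ < N := by
    rw [hρ]
    exact Nat.mod_lt _ hN
  have hRe : R = N * Q + ρ := by
    rw [hQ, hρ]
    exact (Nat.div_add_mod R N).symm
  obtain ⟨m, hm⟩ : ∃ m, m = ∑ w ∈ Finset.range N, G w := ⟨_, rfl⟩
  obtain ⟨B, hB⟩ : ∃ B, B = ∑ w ∈ Finset.range ρ, G w := ⟨_, rfl⟩
  have h3 : ∑ y ∈ Finset.range R, G (y % N) = Q * m + B := by
    rw [hRe, Finset.sum_range_add, sum_mod, hm, hB]
    congr 1
    refine Finset.sum_congr rfl fun x hx => ?_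
    rw [Nat.mul_add_mod, Nat.mod_eq_of_lt ((Finset.mem_range.mp hx).trans hρN)]
  have hm0 : 0 ≤ m := by
    rw [hm]
    exact Finset.sum_nonneg fun w _ => hG0 w
  have hmN : m ≤ N := by
    rw [hm]
    calc ∑ w ∈ Finset.range N, G w ≤ ∑ w ∈ Finset.range N, (1 : ℝ) :=
          Finset.sum_le_sum fun w _ => hG1 w
      _ = N := by simp
  have hB0 : 0 ≤ B := by
    rw [hB]
    exact Finset.sum_nonneg fun w _ => hG0 w
  have hBρ : B ≤ ρ := by
    rw [hB]
    calc ∑ w ∈ Finset.range ρ, G w ≤ ∑ w ∈ Finset.range ρ, (1 : ℝ) :=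
          Finset.sum_le_sum fun w _ => hG1 w
      _ = ρ := by simp
  have hN' : (0 : ℝ) < N := by exact_mod_cast hN
  have hR' : (0 : ℝ) < R := by exact_mod_cast hR
  have hρ0 : (0 : ℝ) ≤ ρ := Nat.cast_nonneg _
  have hρ' : (ρ : ℝ) ≤ N := by exact_mod_cast hρN.le
  have hRr : (R : ℝ) = N * Q + ρ := by
    rw [hRe]
    push_cast
    ring
  rw [h1, h2, h3, ← hm]
  have h4 : (Q * m + B) / (R : ℝ) - m / N = (N * B - m * ρ) / (N * R) := by
    rw [div_sub_div _ _ hR'.ne' hN'.ne', hRr]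
    congr 1
    · ring
    · ring
  rw [h4, abs_div, abs_of_pos (mul_pos hN' hR'), div_le_div_iff₀ (mul_pos hN' hR') hR']
  have h5 : |N * B - m * ρ| ≤ N * N := by
    rw [abs_le]
    constructor
    · have : m * ρ ≤ N * N := mul_le_mul hmN hρ' hρ0 hN'.le
      have : 0 ≤ N * B := mul_nonneg hN'.le hB0
      linarith
    · have : N * B ≤ N * N := mul_le_mul_of_nonneg_left (hBρ.trans hρ') hN'.le
      have : 0 ≤ m * ρ := mul_nonneg hm0 hρ0
      linarith
  calc |N * B - m * ρ| * R ≤ N * N * R := mul_le_mul_of_nonneg_right h5 hR'.le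
    _ = N * (N * R) := by ring

theorem pv_congr {P D : ℕ} {c c' : ℕ → ℕ} (h : ∀ i < D, c i = c' i) (x : ℕ) :
    pv P D c x = pv P D c' x := by
  unfold pv
  congr 1
  exact Finset.sum_congr rfl fun i hi => by rw [h i (Finset.mem_range.mp hi)]

theorem sb_mod (P D y u : ℕ) : sb P D (y % P ^ D) u = sb P D y u := by
  unfold sb
  rw [pv_congr (c := dg P (y % P ^ D)) (c' := dg P y)]
  intro i hi
  exact Helper34.DT.dig_mod P D y i hi

theorem sb_ext (P D : ℕ) (w : Fin (P ^ D)) (u : ℕ) :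
    sb P D w u = decide (2 * pv P D (ext (finFunctionFinEquiv.symm w)) u < P) := by
  unfold sb
  rw [pv_congr (c := dg P w) (c' := ext (finFunctionFinEquiv.symm w))]
  intro i hi
  rw [ext, dif_pos hi, finFunctionFinEquiv_symm_apply_val, dg]

theorem str : StrStmt := by
  intro P D R hP hR φ S hS hD
  have hP0 := hP.pos
  have hN : 0 < P ^ D := pow_pos hP0 D
  -- (a)
  have ha := pr_mod hN hR (fun n => φ fun u => sb P D n u)
  have ha' : pr (fun y : Fin R => φ fun u => sb P D (y % P ^ D) u) =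
      pr (fun y : Fin R => φ fun u => sb P D y u) := by
    refine pr_congr fun y => ?_
    have h : (fun u : Fin P => sb P D ((y : ℕ) % P ^ D) u) = fun u : Fin P => sb P D y u := by
      funext u
      exact sb_mod P D y u
    rw [h]
  rw [ha'] at ha
  -- (b)
  obtain ⟨Ψ, hΨ⟩ : ∃ Ψ : (S → Fin P) → ℝ, Ψ = fun s =>
    if φ (fun u => if h : u ∈ S then decide (2 * (s ⟨u, h⟩ : ℕ) < P) else false) then (1 : ℝ)
      else 0 := ⟨_, rfl⟩
  have hcard : Fintype.card S ≤ D := by
    rw [← Nat.card_eq_fintype_card]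
    exact hD
  have h1 := Helper20.DT.lag_av Helper35.DT.lag hP (X := S) (fun x => ((x : Fin P) : ℕ))
    (fun x y h => Subtype.ext (Fin.ext h)) (fun x => (x : Fin P).2) hcard Ψ
  have h2 := Helper20.DT.av_marg hP0 S Ψ
  have h3 : bp P P φ = av Ψ := by
    rw [← h2]
    unfold bp pr
    refine av_congr fun y => ?_
    rw [hΨ]
    dsimp only
    have h4 : φ (fun u => if h : u ∈ S then decide (2 * (y u : ℕ) < P) else false) ↔
        φ (fun u => decide (2 * (y u : ℕ) < P)) := by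
      apply hS
      intro v hv
      simp only [hv, dif_pos]
    by_cases h5 : φ (fun u => decide (2 * (y u : ℕ) < P))
    · rw [if_pos h5, if_pos (h4.mpr h5)]
    · rw [if_neg h5, if_neg fun h => h5 (h4.mp h)]
  have h4 : pr (fun w : Fin (P ^ D) => φ fun u => sb P D w u) = av Ψ := by
    rw [← h1, ← av_equiv (finFunctionFinEquiv (m := P) (n := D)).symm]
    unfold pr
    refine av_congr fun w => ?_
    rw [hΨ]
    dsimp only
    have h5 : φ (fun u => if h : u ∈ S then
        decide (2 * pv P D (ext (finFunctionFinEquiv.symm w)) u < P) else false) ↔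
        φ (fun u => sb P D w u) := by
      apply hS
      intro v hv
      simp only [hv, dif_pos]
      exact (sb_ext P D w v).symm
    by_cases h6 : φ (fun u => sb P D w u)
    · rw [if_pos h6, if_pos (h5.mpr h6)]
    · rw [if_neg h6, if_neg fun h => h6 (h5.mp h)]
  -- (c)
  have hc := Helper93.DT.bia P P D hP0 φ S hS hD
  rw [h3, ← h4] at hc
  have hcast : ((P ^ D : ℕ) : ℝ) = (P : ℝ) ^ D := by push_cast; rfl
  rw [hcast] at ha
  calc |pr (fun y : Fin R => φ fun u => sb P D y u) - pr φ|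
      ≤ |pr (fun y : Fin R => φ fun u => sb P D y u) -
          pr (fun w : Fin (P ^ D) => φ fun u => sb P D w u)| +
        |pr (fun w : Fin (P ^ D) => φ fun u => sb P D w u) - pr φ| := abs_sub_le _ _ _
    _ ≤ (P : ℝ) ^ D / R + D / P := add_le_add ha hc

end Pool.Agent.Helper40.JT
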